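import Pool.Agent.Helper92.RECT.Goals1
import Pool.Agent.Helper54.OH.MLS

/-!
# Processes on numbers with one head: the token machine is computed in linear space
-/

set_option linter.unusedSectionVars false

namespace Pool.Agent.Helper16.RECT

open Pool.Agent.Helper65.LinSpace Pool.Agent.Helper78.Mpc Pool.Agent.Helper28.Ram Finset
open Pool.Agent.Helper92.RECT
open Pool.Agent.Helper54.OH (LS_tab)

variable {α β : Type} [Ctx α] [Ctx β]

theorem lspr_comp {P : α → Pr} {C : α → ℕ} (h : LSPr P C) {π : β → α} (hπ : LS π) :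
    LSPr (fun b => P (π b)) (fun b => C (π b)) where
  S := LS.comp (g := fun z => (P z).S) h.S hπ
  κ := LS.comp (g := fun z => (P z).κ) h.κ hπ
  D := LS.comp (g := fun z => (P z).D) h.D hπ
  θ := LS.comp (g := fun z => (P z).θ) h.θ hπ
  d := LS.comp (g := fun z => (P z).d) h.d hπ
  o := LS.comp (g := fun z => (P z).o) h.o hπ
  a := LS.comp (g := fun z => (P z).a) h.a hπ
  V := LS.comp (g := fun z => (P z).V) h.V hπ
  Tc := LS.comp (g := fun z => (P z).Tc) h.Tc hπ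
  fin := by
    have h1 : LS (fun z : β × ℕ => (π z.1, z.2)) := by
      have : LS (fun z : β × ℕ => π z.1) := LS.comp (g := π) hπ LS.fst
      fun_prop
    exact LS.comp (g := fun z : α × ℕ => (P z.1).fin z.2) h.fin h1
  N := by
    have h1 : LS (fun z : β × ℕ × ℕ => (π z.1, z.2.1, z.2.2)) := by
      have : LS (fun z : β × ℕ × ℕ => π z.1) := LS.comp (g := π) hπ LS.fst
      fun_prop
    exact LS.comp (g := fun z : α × ℕ × ℕ => (P z.1).N z.2.1 z.2.2) h.N h1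
  W := by
    have h1 : LS (fun z : β × ℕ × ℕ => (π z.1, z.2.1, z.2.2)) := by
      have : LS (fun z : β × ℕ × ℕ => π z.1) := LS.comp (g := π) hπ LS.fst
      fun_prop
    exact LS.comp (g := fun z : α × ℕ × ℕ => (P z.1).W z.2.1 z.2.2) h.W h1
  q0 := LS.comp (g := fun z => (P z).q0) h.q0 hπ
  M0 := by
    have h1 : LS (fun z : β × ℕ => (π z.1, z.2)) := by
      have : LS (fun z : β × ℕ => π z.1) := LS.comp (g := π) hπ LS.fst
      fun_prop
    exact LS.comp (g := fun z : α × ℕ => (P z.1).M0 z.2) h.M0 h1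
  al := LS.comp (g := fun z => (P z).al) h.al hπ
  fc := by
    have h1 : LS (fun z : β × ℕ × ℕ => (π z.1, z.2.1, z.2.2)) := by
      have : LS (fun z : β × ℕ × ℕ => π z.1) := LS.comp (g := π) hπ LS.fst
      fun_prop
    exact LS.comp (g := fun z : α × ℕ × ℕ => (P z.1).fc z.2.1 z.2.2) h.fc h1
  bd := LS.comp (g := C) h.bd hπ
  ok := fun z => h.ok (π z)
  h1 := fun z => h.h1 (π z)
  h2 := fun z => h.h2 (π z)
  h3 := fun z => h.h3 (π z)
  h4 := fun z => h.h4 (π z)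
  h5 := fun z => h.h5 (π z)
  h6 := fun z => h.h6 (π z)

/-- A step in a cube keeps the code, or gives a small number. -/
theorem loc_lt (P : Pr) (h : P.Ok) (B z : ℕ) : P.loc B z = z ∨ P.loc B z < 2 ^ P.sx * 2 ^ P.a := by
  unfold Pr.loc
  have hv : P.vl z < 2 ^ (P.S + 1) := dig_lt (by positivity) _ _
  have hq : z % 2 ^ P.sx < 2 ^ P.sx := Nat.mod_lt _ (by positivity)
  have h1 := h.N_lt _ _ hq hv
  have h2 := h.W_lt _ _ hq hv
  generalize P.N (z % 2 ^ P.sx) (P.vl z) = u at *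
  generalize P.W (z % 2 ^ P.sx) (P.vl z) = w at *
  have h3 : tab (2 ^ (P.S + 1)) (P.d ^ P.D) (fun j => ifz (eq01 j (P.cel (P.ce (z % 2 ^ P.sx))))
      (dig (2 ^ (P.S + 1)) (z / 2 ^ P.sx) j) w) < (2 ^ (P.S + 1)) ^ (P.d ^ P.D) := by
    refine tab_lt fun j _ => ?_
    unfold ifz
    split_ifs
    · exact dig_lt (by positivity) _ _
    · exact h2
  have h4 : (2 ^ (P.S + 1)) ^ (P.d ^ P.D) ≤ 2 ^ P.a := by
    rw [← pow_mul]
    exact Nat.pow_le_pow_right (by norm_num) h.ha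
  generalize tab (2 ^ (P.S + 1)) (P.d ^ P.D) (fun j => ifz (eq01 j (P.cel (P.ce (z % 2 ^ P.sx))))
      (dig (2 ^ (P.S + 1)) (z / 2 ^ P.sx) j) w) = t at *
  have h5 : t + 1 ≤ 2 ^ P.a := by omega
  have h6 : 2 ^ P.sx * (t + 1) ≤ 2 ^ P.sx * 2 ^ P.a := Nat.mul_le_mul_left _ h5
  rw [Nat.mul_add, mul_one] at h6
  unfold ifz
  split_ifs
  · left
    rfl
  · right
    omega

theorem rn_le (P : Pr) (h : P.Ok) (B z n : ℕ) : P.rn B z n ≤ z + 2 ^ P.sx * 2 ^ P.a := by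
  unfold Pr.rn
  induction n with
  | zero => simp
  | succ n ih =>
    rw [nrec_succ]
    rcases loc_lt P h B (nrec z (fun _ z => P.loc B z) n) with h1 | h1
    · rw [h1]
      exact ih
    · omega

section fam

variable {P : α → Pr} {C : α → ℕ} (h : LSPr P C)
include h

theorem l_sx : LS (fun z => (P z).sx) := LS.add h.θ (LS.mul h.κ h.D)

theorem p_sx : LS (fun z => 2 ^ (P z).sx) :=
  LS.pow_of_le (f := fun _ => 2) (LS.const 2) (l_sx h) h.bd h.h1

theorem p_a : LS (fun z => 2 ^ (P z).a) :=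
  LS.pow_of_le (f := fun _ => 2) (LS.const 2) h.a h.bd h.h2

theorem p_S : LS (fun z => 2 ^ ((P z).S + 1)) :=
  LS.pow_of_le (f := fun _ => 2) (LS.const 2) (LS.add h.S (LS.const 1)) h.bd h.h3

theorem p_κ : LS (fun z => 2 ^ (P z).κ) :=
  LS.pow_of_le (f := fun _ => 2) (LS.const 2) h.κ h.bd h.h4

theorem p_θ : LS (fun z => 2 ^ (P z).θ) :=
  LS.pow_of_le (f := fun _ => 2) (LS.const 2) h.θ h.bd fun z =>
    (Nat.pow_le_pow_right (by norm_num) (Nat.le_add_right _ _)).trans (h.h1 z)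

theorem p_d : LS (fun z => (P z).d ^ (P z).D) := LS.pow_of_le h.d h.D h.bd h.h5

theorem bκD (z : α) : (2 ^ (P z).κ) ^ (P z).D ≤ C z := by
  rw [← pow_mul]
  exact (Nat.pow_le_pow_right (by norm_num) (Nat.le_add_left _ _)).trans (h.h1 z)

theorem bSd (z : α) : (2 ^ ((P z).S + 1)) ^ ((P z).d ^ (P z).D) ≤ C z := by
  rw [← pow_mul]
  exact (Nat.pow_le_pow_right (by norm_num) (h.ok z).ha).trans (h.h2 z)

variable {p q v j B n : α → ℕ}

theorem l_fin (hq : LS q) : LS (fun z => (P z).fin (q z)) :=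
  LS.comp (g := fun z : α × ℕ => (P z.1).fin z.2) (f := fun z => (z, q z)) h.fin (by fun_prop)

theorem l_M0 (hq : LS q) : LS (fun z => (P z).M0 (q z)) :=
  LS.comp (g := fun z : α × ℕ => (P z.1).M0 z.2) (f := fun z => (z, q z)) h.M0 (by fun_prop)

theorem l_N (hq : LS q) (hv : LS v) : LS (fun z => (P z).N (q z) (v z)) :=
  LS.comp (g := fun z : α × ℕ × ℕ => (P z.1).N z.2.1 z.2.2) (f := fun z => (z, q z, v z)) h.N
    (by fun_prop)

theorem l_W (hq : LS q) (hv : LS v) : LS (fun z => (P z).W (q z) (v z)) :=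
  LS.comp (g := fun z : α × ℕ × ℕ => (P z.1).W z.2.1 z.2.2) (f := fun z => (z, q z, v z)) h.W
    (by fun_prop)

theorem l_fc (hq : LS q) (hv : LS v) : LS (fun z => (P z).fc (q z) (v z)) :=
  LS.comp (g := fun z : α × ℕ × ℕ => (P z.1).fc z.2.1 z.2.2) (f := fun z => (z, q z, v z)) h.fc
    (by fun_prop)

theorem l_ce (hq : LS q) : LS (fun z => (P z).ce (q z)) := LS.div hq (p_θ h)

theorem l_blk (hp : LS p) : LS (fun z => (P z).blk (p z)) := by
  have h1 := lspr_comp h (π := fun p : α × ℕ => p.1) LS.fst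
  have hp1 : LS (fun b : α × ℕ => p b.1) := LS.comp (g := p) hp LS.fst
  have h2 : LS (fun b : α × ℕ => (dig (2 ^ (P b.1).κ) (p b.1) b.2 + (P b.1).o) / (P b.1).d) :=
    LS.div (LS.add (LS.dig (p_κ h1) hp1 LS.snd) h1.o) h1.d
  exact LS_tab (q := fun z => 2 ^ (P z).κ) (m := fun z => (P z).D)
    (d := fun z k => (dig (2 ^ (P z).κ) (p z) k + (P z).o) / (P z).d) (C := C)
    (B := fun z => 2 ^ (P z).κ + (P z).o) h2 (p_κ h) h.D h.bd (LS.add (p_κ h) h.o)
    (fun z => by positivity)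
    (fun z k _ => (Nat.div_le_self _ _).trans
      (Nat.add_le_add_right (dig_lt (by positivity) _ _).le _)) (bκD h)

theorem l_cel (hp : LS p) : LS (fun z => (P z).cel (p z)) := by
  have h1 := lspr_comp h (π := fun p : α × ℕ => p.1) LS.fst
  have hp1 : LS (fun b : α × ℕ => p b.1) := LS.comp (g := p) hp LS.fst
  have h2 : LS (fun b : α × ℕ => (dig (2 ^ (P b.1).κ) (p b.1) b.2 + (P b.1).o) % (P b.1).d) :=
    LS.mod (LS.add (LS.dig (p_κ h1) hp1 LS.snd) h1.o) h1.d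
  exact LS_tab (q := fun z => (P z).d) (m := fun z => (P z).D)
    (d := fun z k => (dig (2 ^ (P z).κ) (p z) k + (P z).o) % (P z).d) (C := C)
    (B := fun z => (P z).d) h2 h.d h.D h.bd h.d (fun z => (h.ok z).hd)
    (fun z k _ => (Nat.mod_lt _ (h.ok z).hd).le) h.h5

theorem l_ccl (hB : LS B) (hj : LS j) : LS (fun z => (P z).ccl (B z) (j z)) := by
  have h1 := lspr_comp h (π := fun p : α × ℕ => p.1) LS.fst
  have hB1 : LS (fun b : α × ℕ => B b.1) := LS.comp (g := B) hB LS.fst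
  have hj1 : LS (fun b : α × ℕ => j b.1) := LS.comp (g := j) hj LS.fst
  have h2 : LS (fun b : α × ℕ => (dig (2 ^ (P b.1).κ) (B b.1) b.2 * (P b.1).d +
      dig (P b.1).d (j b.1) b.2 - (P b.1).o) % 2 ^ (P b.1).κ) :=
    LS.mod (LS.sub (LS.add (LS.mul (LS.dig (p_κ h1) hB1 LS.snd) h1.d)
      (LS.dig h1.d hj1 LS.snd)) h1.o) (p_κ h1)
  exact LS_tab (q := fun z => 2 ^ (P z).κ) (m := fun z => (P z).D)
    (d := fun z k => (dig (2 ^ (P z).κ) (B z) k * (P z).d + dig (P z).d (j z) k - (P z).o) %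
      2 ^ (P z).κ) (C := C)
    (B := fun z => 2 ^ (P z).κ) h2 (p_κ h) h.D h.bd (p_κ h) (fun z => by positivity)
    (fun z k _ => (Nat.mod_lt _ (by positivity)).le) (bκD h)

theorem l_cm (hB : LS B) : LS (fun z => (P z).cm (B z)) := by
  have h1 := lspr_comp h (π := fun p : α × ℕ => p.1) LS.fst
  have hB1 : LS (fun b : α × ℕ => B b.1) := LS.comp (g := B) hB LS.fst
  have h2 : LS (fun b : α × ℕ => (P b.1).M0 ((P b.1).ccl (B b.1) b.2)) :=
    l_M0 h1 (l_ccl h1 hB1 LS.snd)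
  exact LS.mod (LS_tab (q := fun z => 2 ^ ((P z).S + 1)) (m := fun z => (P z).d ^ (P z).D)
    (d := fun z k => (P z).M0 ((P z).ccl (B z) k)) (C := C)
    (B := fun z => 2 ^ ((P z).S + 1)) h2 (p_S h) (p_d h) h.bd (p_S h) (fun z => by positivity)
    (fun z k _ => ((h.ok z).M0_lt _).le) (bSd h)) (p_a h)

theorem l_vl (hv : LS v) : LS (fun z => (P z).vl (v z)) :=
  LS.dig (p_S h) (LS.div hv (p_sx h)) (l_cel h (l_ce h (LS.mod hv (p_sx h))))

theorem l_act (hB : LS B) (hv : LS v) : LS (fun z => (P z).act (B z) (v z)) :=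
  LS.mul (LS.eq01 (l_blk h (l_ce h (LS.mod hv (p_sx h)))) hB)
    (LS.eq01 (l_fin h (LS.mod hv (p_sx h))) (LS.const 0))

theorem l_loc (hB : LS B) (hv : LS v) : LS (fun z => (P z).loc (B z) (v z)) := by
  have h1 := lspr_comp h (π := fun p : α × ℕ => p.1) LS.fst
  have hv1 : LS (fun b : α × ℕ => v b.1) := LS.comp (g := v) hv LS.fst
  have hq : LS (fun z => v z % 2 ^ (P z).sx) := LS.mod hv (p_sx h)
  have hq1 : LS (fun b : α × ℕ => v b.1 % 2 ^ (P b.1).sx) := LS.mod hv1 (p_sx h1)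
  have h2 : LS (fun b : α × ℕ => ifz (eq01 b.2 ((P b.1).cel ((P b.1).ce (v b.1 % 2 ^ (P b.1).sx))))
      (dig (2 ^ ((P b.1).S + 1)) (v b.1 / 2 ^ (P b.1).sx) b.2)
      ((P b.1).W (v b.1 % 2 ^ (P b.1).sx) ((P b.1).vl (v b.1)))) :=
    LS.ifz (LS.eq01 LS.snd (l_cel h1 (l_ce h1 hq1)))
      (LS.dig (p_S h1) (LS.div hv1 (p_sx h1)) LS.snd) (l_W h1 hq1 (l_vl h1 hv1))
  refine LS.ifz (l_act h hB hv) hv (LS.add (l_N h hq (l_vl h hv)) (LS.mul (p_sx h)
    (LS_tab (q := fun z => 2 ^ ((P z).S + 1)) (m := fun z => (P z).d ^ (P z).D)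
      (d := fun z k => ifz (eq01 k ((P z).cel ((P z).ce (v z % 2 ^ (P z).sx))))
        (dig (2 ^ ((P z).S + 1)) (v z / 2 ^ (P z).sx) k)
        ((P z).W (v z % 2 ^ (P z).sx) ((P z).vl (v z)))) (C := C)
      (B := fun z => 2 ^ ((P z).S + 1)) h2 (p_S h) (p_d h) h.bd (p_S h)
      (fun z => by positivity) ?_ (bSd h))))
  intro z k _
  have h3 : (P z).W (v z % 2 ^ (P z).sx) ((P z).vl (v z)) < 2 ^ ((P z).S + 1) :=
    (h.ok z).W_lt _ _ (Nat.mod_lt _ (by positivity)) (dig_lt (by positivity) _ _)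
  have h4 : dig (2 ^ ((P z).S + 1)) (v z / 2 ^ (P z).sx) k < 2 ^ ((P z).S + 1) :=
    dig_lt (by positivity) _ _
  unfold ifz
  split_ifs
  · exact h4.le
  · exact h3.le

theorem l_rn (hB : LS B) (hv : LS v) (hn : LS n) : LS (fun z => (P z).rn (B z) (v z) (n z)) := by
  have h1 := lspr_comp h (π := fun p : α × ℕ × ℕ => p.1) LS.fst
  have hB1 : LS (fun b : α × ℕ × ℕ => B b.1) := LS.comp (g := B) hB LS.fst
  have h2 : LS (fun b : α × ℕ × ℕ => b.2.2) := by fun_prop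
  refine LS.nrec (G := v) (N := n) (K := fun z _ w => (P z).loc (B z) w)
    (C := fun z => v z + C z * C z) hv hn (LS.add hv (LS.mul h.bd h.bd)) (l_loc h1 hB1 h2) ?_
  intro z i _
  exact (rn_le (P z) (h.ok z) (B z) (v z) i).trans
    (Nat.add_le_add_left (Nat.mul_le_mul (h.h1 z) (h.h2 z)) _)

theorem l_rz (hq : LS q) (hv : LS v) : LS (fun z => (P z).rz (q z) (v z)) :=
  l_rn h (l_blk h (l_ce h (LS.sub hq (LS.const 2))))
    (LS.add (LS.sub hq (LS.const 2)) (LS.mul (p_sx h) hv)) h.Tc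

theorem l_fA (hq : LS q) : LS (fun z => (P z).fA (q z)) :=
  LS.capN h.V (LS.ifz (LS.lt01 (LS.const 1) hq) (LS.const 0)
    (LS.ifz (l_fin h (LS.sub hq (LS.const 2))) (l_blk h (l_ce h (LS.sub hq (LS.const 2))))
      (l_blk h h.al)))

theorem l_fN (hq : LS q) (hv : LS v) : LS (fun z => (P z).fN (q z) (v z)) :=
  LS.capN h.V (LS.ifz (LS.lt01 (LS.const 1) hq) hq
    (LS.ifz (l_fin h (LS.sub hq (LS.const 2)))
      (LS.add (LS.const 2) (LS.mod (l_rz h hq hv) (p_sx h)))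
      (LS.lt01 (LS.const 0) (l_fc h (LS.sub hq (LS.const 2))
        (LS.dig (p_S h) hv (l_cel h h.al))))))

theorem l_fW (hq : LS q) (hv : LS v) : LS (fun z => (P z).fW (q z) (v z)) :=
  LS.mod (LS.ifz (LS.lt01 (LS.const 1) hq) hv
    (LS.ifz (l_fin h (LS.sub hq (LS.const 2)))
      (LS.div (l_rz h hq hv) (p_sx h)) hv)) (p_a h)

end fam

/-- The functions of the token machine are computed in linear space. -/
theorem lsf : LSF_stmt := by
  intro α _ P C h
  have h1 := lspr_comp h (π := fun p : α × ℕ => p.1) LS.fst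
  have h2 := lspr_comp h (π := fun p : α × ℕ × ℕ => p.1) LS.fst
  have ha2 : LS (fun p : α × ℕ × ℕ => p.2.1) := by fun_prop
  have hb2 : LS (fun p : α × ℕ × ℕ => p.2.2) := by fun_prop
  exact ⟨l_fA h1 LS.snd, l_fN h2 ha2 hb2, l_fW h2 ha2 hb2,
    LS.capN h.V (LS.add (LS.const 2) h.q0), l_cm h1 LS.snd⟩

end Pool.Agent.Helper16.RECT
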